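import Pool.Agent.SrcFano.GoodC
import Pool.Agent.SrcFano.CaseB
import Pool.Agent.SrcFano.Small

namespace Pool.Agent.Results.MP_fe9afc_ag.SRCFano

open Pool.Agent.SrcFano

/-- For every prime `p` and all `n ≥ 2`, `1 ≤ d ≤ n` there is a form `F` of degree `d` in `n + 1`
variables with coefficients in `𝔽_p` that defines a smooth hypersurface `X` over the algebraic
closure of `𝔽_p`, and a morphism `f : ℙ¹ → X` with `f^* T_X` ample. -/
theorem result (p : ℕ) [Fact p.Prime] (n d : ℕ) (hn : 2 ≤ n) (hd : 1 ≤ d) (hdn : d ≤ n) :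
    ∃ F : MvPolynomial (Fin (n + 1)) (ZMod p), F.IsHomogeneous d ∧
      IsSmoothHypersurface (MvPolynomial.map (algebraMap (ZMod p) (AlgebraicClosure (ZMod p))) F) ∧
      ∃ (e : ℕ) (f : Fin (n + 1) → MvPolynomial (Fin 2) (AlgebraicClosure (ZMod p))),
        IsVeryFreeCurve (MvPolynomial.map (algebraMap (ZMod p) (AlgebraicClosure (ZMod p))) F)
          e f := by
  rcases (by omega : d = 1 ∨ d = 2 ∨ 3 ≤ d) with h | h | h
  · subst h
    refine (goodOne p (n - 2)).transfer (Fintype.equivFinOfCardEq ?_)
    rw [Fintype.card_sum, Fintype.card_fin, Fintype.card_fin]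
    omega
  · subst h
    refine (goodTwo p (n - 2)).transfer (Fintype.equivFinOfCardEq ?_)
    rw [Fintype.card_sum, Fintype.card_fin, Fintype.card_fin]
    omega
  · by_cases h1 : p ∣ d
    · refine (goodB p d (n - 3) h (by omega) h1).transfer (Fintype.equivFinOfCardEq ?_)
      rw [Fintype.card_sum, Fintype.card_fin, Fintype.card_fin]
      omega
    · by_cases h2 : p ∣ d - 1
      · refine (goodA p d (n - 3) h (by omega) h2).transfer (Fintype.equivFinOfCardEq ?_)
        rw [Fintype.card_sum, Fintype.card_fin, Fintype.card_fin]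
        omega
      · obtain ⟨N, rfl⟩ : ∃ N, d = N + 1 := ⟨d - 1, by omega⟩
        rw [Nat.add_sub_cancel] at h2
        have : NeZero N := ⟨by omega⟩
        refine (goodC p N (n - (N + 1)) (by omega) h2 h1).transfer
          (Fintype.equivFinOfCardEq ?_)
        rw [Fintype.card_sum, Fintype.card_sum, Fintype.card_fin, Fintype.card_fin,
          Fintype.card_fin]
        omega

end Pool.Agent.Results.MP_fe9afc_ag.SRCFano
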